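import Mathlib

/-!
# Almost all finite graphs contain a given finite graph as an induced subgraph
-/

set_option autoImplicit false

open Filter Topology

namespace Pool.Agent.Y567.GraphProportion

/-! ### Counting -/

section counting

variable {V W : Type} {k : ℕ}

/-- The pair lies in a common block. -/
def InBlock (e : Fin k × W ↪ V) (u v : V) : Prop := ∃ i a b, u = e (i, a) ∧ v = e (i, b)

theorem InBlock.symm {e : Fin k × W ↪ V} {u v : V} (h : InBlock e u v) : InBlock e v u := by
  obtain ⟨i, a, b, h1, h2⟩ := h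
  exact ⟨i, b, a, h2, h1⟩

/-- The graphs without edges inside the blocks. -/
def Outer (e : Fin k × W ↪ V) : Type := {H : SimpleGraph V // ∀ u v, H.Adj u v → ¬ InBlock e u v}

/-- The part of a graph outside the blocks. -/
def outer (e : Fin k × W ↪ V) (G : SimpleGraph V) : Outer e :=
  ⟨{ Adj := fun u v => G.Adj u v ∧ ¬ InBlock e u v
     symm := ⟨fun _ _ h => ⟨h.1.symm, fun h' => h.2 h'.symm⟩⟩
     loopless := ⟨fun u h => G.loopless.irrefl u h.1⟩ }, fun _ _ h => h.2⟩

/-- The block of index `i`. -/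
def blk (e : Fin k × W ↪ V) (G : SimpleGraph V) (i : Fin k) : SimpleGraph W :=
  G.comap (fun a => e (i, a))

theorem split_injective (e : Fin k × W ↪ V) :
    Function.Injective (fun G : SimpleGraph V => (outer e G, blk e G)) := by
  intro G G' h
  have h1 : outer e G = outer e G' := congrArg Prod.fst h
  have h2 : blk e G = blk e G' := congrArg Prod.snd h
  ext u v
  by_cases hb : InBlock e u v
  · obtain ⟨i, a, b, rfl, rfl⟩ := hb
    have h3 := congrArg (fun f : Fin k → SimpleGraph W => (f i).Adj a b) h2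
    exact iff_of_eq h3
  · have h3 := congrArg (fun f : Outer e => f.1.Adj u v) h1
    have h4 : (G.Adj u v ∧ ¬ InBlock e u v) ↔ (G'.Adj u v ∧ ¬ InBlock e u v) := iff_of_eq h3
    exact ⟨fun h => (h4.1 ⟨h, hb⟩).1, fun h => (h4.2 ⟨h, hb⟩).1⟩

/-- Gluing. -/
def glue (e : Fin k × W ↪ V) (p : Outer e × (Fin k → SimpleGraph W)) : SimpleGraph V :=
  { Adj := fun u v => p.1.1.Adj u v ∨ ∃ i a b, u = e (i, a) ∧ v = e (i, b) ∧ (p.2 i).Adj a b
    symm := ⟨by
      rintro u v (h | ⟨i, a, b, h1, h2, h3⟩)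
      · exact Or.inl h.symm
      · exact Or.inr ⟨i, b, a, h2, h1, h3.symm⟩⟩
    loopless := ⟨by
      rintro u (h | ⟨i, a, b, h1, h2, h3⟩)
      · exact p.1.1.loopless.irrefl u h
      · have h4 : (i, a) = (i, b) := e.injective (h1.symm.trans h2)
        have h5 : a = b := congrArg Prod.snd h4
        rw [h5] at h3
        exact (p.2 i).loopless.irrefl b h3⟩ }

theorem glue_outer (e : Fin k × W ↪ V) (p : Outer e × (Fin k → SimpleGraph W)) (u v : V) :
    p.1.1.Adj u v ↔ (glue e p).Adj u v ∧ ¬ InBlock e u v := by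
  constructor
  · intro h
    exact ⟨Or.inl h, p.1.2 u v h⟩
  · rintro ⟨h | ⟨i, a, b, h1, h2, h3⟩, hb⟩
    · exact h
    · exact absurd ⟨i, a, b, h1, h2⟩ hb

theorem glue_block (e : Fin k × W ↪ V) (p : Outer e × (Fin k → SimpleGraph W)) (i : Fin k)
    (a b : W) : (p.2 i).Adj a b ↔ (glue e p).Adj (e (i, a)) (e (i, b)) := by
  constructor
  · intro h
    exact Or.inr ⟨i, a, b, rfl, rfl, h⟩
  · rintro (h | ⟨j, a', b', h1, h2, h3⟩)
    · exact absurd ⟨i, a, b, rfl, rfl⟩ (p.1.2 _ _ h)
    · have h4 := e.injective h1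
      have h5 := e.injective h2
      have h6 : i = j := congrArg Prod.fst h4
      have h7 : a = a' := congrArg Prod.snd h4
      have h8 : b = b' := congrArg Prod.snd h5
      subst h6 h7 h8
      exact h3

theorem glue_injective (e : Fin k × W ↪ V) : Function.Injective (glue e) := by
  intro p q h
  apply Prod.ext
  · apply Subtype.ext
    ext u v
    rw [glue_outer, glue_outer, h]
  · funext i
    ext a b
    rw [glue_block, glue_block, h]

/-- The graphs none of whose blocks is `Γ₀`. -/
def Bad (e : Fin k × W ↪ V) (Γ₀ : SimpleGraph W) : Type :=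
  {G : SimpleGraph V // ∀ i, blk e G i ≠ Γ₀}

theorem card_bad [Finite V] [Finite W] (e : Fin k × W ↪ V) (Γ₀ : SimpleGraph W) :
    Nat.card (Bad e Γ₀) * Nat.card (SimpleGraph W) ^ k ≤
      Nat.card (SimpleGraph V) * (Nat.card (SimpleGraph W) - 1) ^ k := by
  classical
  have : Finite (Outer e) := by unfold Outer; infer_instance
  have : Finite (Bad e Γ₀) := by unfold Bad; infer_instance
  have : Fintype (SimpleGraph W) := Fintype.ofFinite _
  have h1 : Nat.card (Outer e) * Nat.card (SimpleGraph W) ^ k ≤ Nat.card (SimpleGraph V) := by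
    have h := Nat.card_le_card_of_injective (glue e) (glue_injective e)
    rw [Nat.card_prod, Nat.card_fun, Nat.card_fin] at h
    exact h
  have h2 : Nat.card (Bad e Γ₀) ≤ Nat.card (Outer e) * (Nat.card (SimpleGraph W) - 1) ^ k := by
    let F : Bad e Γ₀ → Outer e × (Fin k → {H : SimpleGraph W // H ≠ Γ₀}) := fun G =>
      (outer e G.1, fun i => ⟨blk e G.1 i, G.2 i⟩)
    have hF : Function.Injective F := by
      intro G G' h
      apply Subtype.ext
      apply split_injective e
      have a1 : outer e G.1 = outer e G'.1 := congrArg Prod.fst h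
      have a2 : blk e G.1 = blk e G'.1 := by
        funext i
        have a3 := congrArg (fun q : Outer e × (Fin k → {H : SimpleGraph W // H ≠ Γ₀}) =>
          (q.2 i).1) h
        exact a3
      exact Prod.ext a1 a2
    have h := Nat.card_le_card_of_injective F hF
    rw [Nat.card_prod, Nat.card_fun, Nat.card_fin] at h
    have h3 : Nat.card {H : SimpleGraph W // H ≠ Γ₀} = Nat.card (SimpleGraph W) - 1 := by
      rw [Nat.card_eq_fintype_card, Nat.card_eq_fintype_card, Fintype.card_subtype_compl,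
        Fintype.card_subtype_eq]
    rw [h3] at h
    exact h
  calc Nat.card (Bad e Γ₀) * Nat.card (SimpleGraph W) ^ k
      ≤ Nat.card (Outer e) * (Nat.card (SimpleGraph W) - 1) ^ k * Nat.card (SimpleGraph W) ^ k :=
        Nat.mul_le_mul_right _ h2
    _ = Nat.card (Outer e) * Nat.card (SimpleGraph W) ^ k * (Nat.card (SimpleGraph W) - 1) ^ k := by
        ring
    _ ≤ _ := Nat.mul_le_mul_right _ h1

end counting

/-- The proportion of the graphs on `n` labelled vertices without an induced copy of `Γ₀` tends to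
zero. -/
theorem proportion {W : Type} [Finite W] [Nonempty W] (Γ₀ : SimpleGraph W)
    (Q : ∀ n : ℕ, SimpleGraph (Fin n) → Prop)
    (hQ : ∀ n (G : SimpleGraph (Fin n)), Nonempty (Γ₀ ↪g G) → ¬ Q n G) :
    Tendsto (fun n : ℕ => (Nat.card {G : SimpleGraph (Fin n) // Q n G} : ℝ) /
      Nat.card (SimpleGraph (Fin n))) atTop (𝓝 0) := by
  classical
  set N : ℕ := Nat.card (SimpleGraph W) with hN
  set m : ℕ := Nat.card W with hm
  have hm0 : 0 < m := Nat.card_pos
  have hN0 : 0 < N := Nat.card_pos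
  set r : ℝ := ((N - 1 : ℕ) : ℝ) / N with hr
  have hNR : (0:ℝ) < N := by exact_mod_cast hN0
  have hr0 : 0 ≤ r := by positivity
  have hr1 : r < 1 := by
    rw [hr, div_lt_one hNR]
    exact_mod_cast Nat.sub_lt hN0 one_pos
  have hlim : Tendsto (fun n : ℕ => r ^ (n / m)) atTop (𝓝 0) :=
    (tendsto_pow_atTop_nhds_zero_of_lt_one hr0 hr1).comp (Nat.tendsto_div_const_atTop hm0.ne')
  refine squeeze_zero (fun n => by positivity) (fun n => ?_) hlim
  have hcard : Nat.card (Fin (n / m) × W) ≤ Nat.card (Fin n) := by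
    rw [Nat.card_prod, Nat.card_fin, Nat.card_fin]
    exact Nat.div_mul_le_self n m
  have : Fintype W := Fintype.ofFinite W
  rw [Nat.card_eq_fintype_card, Nat.card_eq_fintype_card] at hcard
  obtain ⟨e⟩ := Function.Embedding.nonempty_of_card_le hcard
  have h1 : Nat.card {G : SimpleGraph (Fin n) // Q n G} ≤ Nat.card (Bad e Γ₀) := by
    have : Finite (Bad e Γ₀) := by unfold Bad; infer_instance
    let F : {G : SimpleGraph (Fin n) // Q n G} → Bad e Γ₀ := fun G => ⟨G.1, fun i hi =>
      hQ n G.1 ⟨by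
        have f : (blk e G.1 i) ↪g G.1 := SimpleGraph.Embedding.comap
          ⟨fun a => e (i, a), fun a b h => congrArg Prod.snd (e.injective h)⟩ G.1
        rw [hi] at f
        exact f⟩ G.2⟩
    refine Nat.card_le_card_of_injective F ?_
    intro G G' h
    apply Subtype.ext
    have h' : (F G).1 = (F G').1 := congrArg Subtype.val h
    exact h'
  have h2 := card_bad e Γ₀
  rw [← hN] at h2
  have hT : (0:ℝ) < Nat.card (SimpleGraph (Fin n)) := by
    exact_mod_cast (Nat.card_pos : 0 < Nat.card (SimpleGraph (Fin n)))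
  rw [div_le_iff₀ hT, hr, div_pow, div_mul_eq_mul_div, le_div_iff₀ (by positivity)]
  have h3 : (Nat.card (Bad e Γ₀) : ℝ) * (N : ℝ) ^ (n / m) ≤
      Nat.card (SimpleGraph (Fin n)) * ((N - 1 : ℕ) : ℝ) ^ (n / m) := by exact_mod_cast h2
  have h4 : (Nat.card {G : SimpleGraph (Fin n) // Q n G} : ℝ) ≤ Nat.card (Bad e Γ₀) := by
    exact_mod_cast h1
  calc (Nat.card {G : SimpleGraph (Fin n) // Q n G} : ℝ) * (N : ℝ) ^ (n / m)
      ≤ (Nat.card (Bad e Γ₀) : ℝ) * (N : ℝ) ^ (n / m) := mul_le_mul_of_nonneg_right h4 (by positivity)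
    _ ≤ _ := h3
    _ = _ := by ring

/-- A property of finite graphs which holds for all graphs that contain `Γ₀` as an induced subgraph
holds for almost all graphs on `n` labelled vertices. -/
theorem proportion_one {W : Type} [Finite W] [Nonempty W] (Γ₀ : SimpleGraph W)
    (Q : ∀ n : ℕ, SimpleGraph (Fin n) → Prop)
    (hQ : ∀ n (G : SimpleGraph (Fin n)), Nonempty (Γ₀ ↪g G) → Q n G) :
    Tendsto (fun n : ℕ => (Nat.card {G : SimpleGraph (Fin n) // Q n G} : ℝ) /
      Nat.card (SimpleGraph (Fin n))) atTop (𝓝 1) := by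
  classical
  have h := proportion Γ₀ (fun n G => ¬ Q n G) (fun n G hG => not_not.2 (hQ n G hG))
  have h1 : Tendsto (fun n : ℕ => 1 - (Nat.card {G : SimpleGraph (Fin n) // ¬ Q n G} : ℝ) /
      Nat.card (SimpleGraph (Fin n))) atTop (𝓝 (1 - 0)) := h.const_sub 1
  rw [sub_zero] at h1
  refine h1.congr (fun n => ?_)
  have hT : (0:ℝ) < Nat.card (SimpleGraph (Fin n)) := by
    exact_mod_cast (Nat.card_pos : 0 < Nat.card (SimpleGraph (Fin n)))
  have h2 : Nat.card {G : SimpleGraph (Fin n) // Q n G} +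
      Nat.card {G : SimpleGraph (Fin n) // ¬ Q n G} = Nat.card (SimpleGraph (Fin n)) := by
    rw [← Nat.card_sum]
    exact Nat.card_congr (Equiv.sumCompl (Q n))
  have h3 : (Nat.card {G : SimpleGraph (Fin n) // Q n G} : ℝ) +
      Nat.card {G : SimpleGraph (Fin n) // ¬ Q n G} = Nat.card (SimpleGraph (Fin n)) := by
    exact_mod_cast h2
  rw [eq_div_iff hT.ne', sub_mul, div_mul_cancel₀ _ hT.ne', one_mul]
  linarith

end Pool.Agent.Y567.GraphProportion
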